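import Pool.Agent.Helper59.MB.Goals1

/-!
# Project MB, packet MNS: the expected values change little with the level.
-/

set_option autoImplicit false
set_option linter.unusedSectionVars false

open MeasureTheory Filter Topology Finset

namespace Pool.Agent.Helper13.MB

open Pool.Agent.Helper59.MB

instance instQ (m : Measure A) [IsProbabilityMeasure m] : IsProbabilityMeasure (Q m) := by
  unfold Q; infer_instance

lemma P_pos (s : ℕ → ℕ) (k : ℕ) : 0 < P s k := pow_pos (by norm_num) _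

lemma P_dvd {s : ℕ → ℕ} (hs : StrictMono s) {l k : ℕ} (h : l ≤ k) : P s l ∣ P s k :=
  pow_dvd_pow _ (hs.monotone h)

lemma mean_mem (hLOC : S_LOC) {s : ℕ → ℕ} (hs : StrictMono s) (m : Measure A)
    [IsProbabilityMeasure m] (Φ : Wd → Wd) (l ρ : ℕ) :
    0 ≤ mean s m Φ l ρ ∧ mean s m Φ l ρ ≤ 1 := by
  have h := (hLOC s hs).2.2
  constructor
  · exact integral_nonneg fun w => (h l ρ (Φ w)).1
  · refine (integral_mono_of_nonneg (ae_of_all _ fun w => (h l ρ (Φ w)).1)
      (integrable_const (1 : ℝ)) (ae_of_all _ fun w => (h l ρ (Φ w)).2)).trans ?_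
    simp

/-- the mean of a test of `cat k Φ` -/
lemma mean_cat (hLOC : S_LOC) (hMEA : S_MEA) (hBLK : S_BLK) {s : ℕ → ℕ} (hs : StrictMono s)
    (V : ℕ → Set (ℕ → ℝ)) (hV : ∀ k, (V k).Countable) (m : Measure A) [IsProbabilityMeasure m]
    (Φ : Wd → Wd) (hΦ : Measurable Φ) {l k : ℕ} (hl : l ≤ k) (ρ : ℕ) :
    ∫ w, ev s l (cat s k Φ w) ρ ∂(Q m) = mean s m Φ l (ρ % P s k) := by
  obtain ⟨ha, hb, -⟩ := hLOC s hs
  have hev := (hMEA s V m hV).1
  have hPk := P_pos s k
  have hPl := P_pos s l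
  have h1 : ∀ w : Wd, ev s l (cat s k Φ w) ρ =
      ev s l (Φ (from' (P s k * (ρ / P s k)) w)) (ρ % P s k) := by
    intro w
    have h2 := hb l k (ρ / P s k) (ρ % P s k) (cat s k Φ w) hl
    rw [Nat.div_add_mod] at h2
    rw [← h2]
    refine ha l _ _ _ fun a hal j _ => ?_
    have hlt : a < P s k := by
      obtain ⟨c, hc⟩ := P_dvd hs hl
      have h3 : ρ % P s k < P s k := Nat.mod_lt _ hPk
      have h4 : ρ % P s k / P s l < c := by
        rw [Nat.div_lt_iff_lt_mul hPl, mul_comm, ← hc]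
        exact h3
      rw [← hal, Nat.div_lt_iff_lt_mul hPl, mul_comm, ← hc] at h4
      exact h4
    have h5 : (P s k * (ρ / P s k) + a) / P s k = ρ / P s k := by
      rw [Nat.mul_add_div hPk, Nat.div_eq_of_lt hlt, add_zero]
    have h6 : (P s k * (ρ / P s k) + a) % P s k = a := by
      rw [Nat.mul_add_mod, Nat.mod_eq_of_lt hlt]
    show cat s k Φ w (P s k * (ρ / P s k) + a) j = _
    unfold cat
    rw [h5, h6]
  have h7 : (Q m).map (from' (P s k * (ρ / P s k))) = Q m :=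
    hBLK A m ℕ ℕ (fun i => P s k * (ρ / P s k) + i) fun i j h => by simpa using h
  have h8 : Measurable (from' (P s k * (ρ / P s k))) := by
    rw [measurable_pi_iff]
    intro i
    exact measurable_pi_apply _
  have h9 : Measurable fun w : Wd => ev s l (Φ w) (ρ % P s k) := (hev l _).comp hΦ
  unfold mean
  conv_rhs => rw [← h7]
  rw [integral_map h8.aemeasurable h9.aestronglyMeasurable]
  exact integral_congr_ae (ae_of_all _ h1)

lemma goodW_mono {s : ℕ → ℕ} {V : ℕ → Set (ℕ → ℝ)} {k : ℕ} {η η' : ℝ} (h : η ≤ η')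
    {e : ℕ → ℕ → ℝ} {w : Wd} (hw : GoodW s V k η e w) : GoodW s V k η' e w :=
  fun l hl i₁ i₂ h1 h2 v hv => (hw l hl i₁ i₂ h1 h2 v hv).trans
    (mul_le_mul_of_nonneg_right h (Nat.cast_nonneg _))

lemma good_of_hgood {s : ℕ → ℕ} {V : ℕ → Set (ℕ → ℝ)} {m : Measure A} [IsProbabilityMeasure m]
    {k : ℕ} {w : Wd} (hw : HGood s V m k w) : Good s V m k w := by
  refine goodW_mono ?_ hw
  have h : (0 : ℝ) < k + 1 := by positivity
  exact one_div_le_one_div_of_le h (by linarith)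

/-- one step -/
lemma step (hLOC : S_LOC) (hMEA : S_MEA) (hBLK : S_BLK) {s : ℕ → ℕ} {V : ℕ → Set (ℕ → ℝ)}
    {m : Measure A} [IsProbabilityMeasure m] {K : ℕ} (hP : Par s V m K) {l k : ℕ} (hl : l ≤ k)
    (hk : k < K) (ρ : ℕ) :
    |E s V m (k + 1) l ρ - E s V m k l (ρ % P s k)| ≤ (1 / 2) ^ (k + 2) := by
  have hV : ∀ k, (V k).Countable := fun k => (hP.fin k).countable
  obtain ⟨hev, hgw, hcat, hPhi⟩ := hMEA s V m hV
  have hc := (hLOC s hP.mono).2.2
  have e1 : E s V m k l (ρ % P s k) = ∫ w, ev s l (cat s k (Phi s V m k) w) ρ ∂(Q m) :=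
    (mean_cat hLOC hMEA hBLK hP.mono V hV m (Phi s V m k) (hPhi k) hl ρ).symm
  have e2 : E s V m (k + 1) l ρ = ∫ w, ev s l (Phi s V m (k + 1) w) ρ ∂(Q m) := rfl
  have m1 : Measurable fun w : Wd => ev s l (cat s k (Phi s V m k) w) ρ :=
    (hev l ρ).comp (hcat k _ (hPhi k))
  have m2 : Measurable fun w : Wd => ev s l (Phi s V m (k + 1) w) ρ :=
    (hev l ρ).comp (hPhi (k + 1))
  have hint : ∀ f : Wd → Wd, (Measurable fun w : Wd => ev s l (f w) ρ) →
      Integrable (fun w : Wd => ev s l (f w) ρ) (Q m) := by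
    intro f hf
    refine Integrable.of_bound hf.aestronglyMeasurable 1 (ae_of_all _ fun w => ?_)
    rw [Real.norm_eq_abs, abs_le]
    exact ⟨by linarith [(hc l ρ (f w)).1], (hc l ρ (f w)).2⟩
  have mB : MeasurableSet {w : Wd | ¬ HGood s V m k (cat s k (Phi s V m k) w)} := by
    have h := (hcat k _ (hPhi k)) (hgw k (1 / (2 * (k + 1))) (E s V m k))
    exact h.compl
  rw [e1, e2, ← integral_sub (hint _ m2) (hint _ m1)]
  have key : ∀ w : Wd, |ev s l (Phi s V m (k + 1) w) ρ - ev s l (cat s k (Phi s V m k) w) ρ| ≤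
      Set.indicator {w : Wd | ¬ HGood s V m k (cat s k (Phi s V m k) w)} (fun _ => (1 : ℝ)) w := by
    intro w
    by_cases hw : HGood s V m k (cat s k (Phi s V m k) w)
    · have h1 : Phi s V m (k + 1) w = cat s k (Phi s V m k) w := if_pos (good_of_hgood hw)
      rw [h1, sub_self, abs_zero]
      exact Set.indicator_nonneg (fun _ _ => zero_le_one) _
    · rw [Set.indicator_of_mem (show w ∈ {w : Wd | ¬ HGood s V m k (cat s k (Phi s V m k) w)} from hw)]
      rw [abs_le]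
      have h2 := hc l ρ (Phi s V m (k + 1) w)
      have h3 := hc l ρ (cat s k (Phi s V m k) w)
      constructor <;> linarith [h2.1, h2.2, h3.1, h3.2]
  calc |∫ w, ev s l (Phi s V m (k + 1) w) ρ - ev s l (cat s k (Phi s V m k) w) ρ ∂(Q m)|
      ≤ ∫ w, |ev s l (Phi s V m (k + 1) w) ρ - ev s l (cat s k (Phi s V m k) w) ρ| ∂(Q m) :=
        abs_integral_le_integral_abs
    _ ≤ ∫ w, Set.indicator {w : Wd | ¬ HGood s V m k (cat s k (Phi s V m k) w)}
          (fun _ => (1 : ℝ)) w ∂(Q m) :=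
        integral_mono ((hint _ m2).sub (hint _ m1)).abs
          ((integrable_const (1 : ℝ)).indicator mB) key
    _ = (Q m).real {w : Wd | ¬ HGood s V m k (cat s k (Phi s V m k) w)} := by
        rw [integral_indicator_const _ mB]; simp
    _ ≤ (1 / 2) ^ (k + 2) / P s (k + 1) := (hP.adm k hk).1
    _ ≤ (1 / 2) ^ (k + 2) := by
        refine div_le_self (by positivity) ?_
        exact_mod_cast P_pos s (k + 1)

/-- **Packet MB-MNS.** -/
theorem t_MNS (hLOC : S_LOC) (_hLOP : S_LOP) (hMEA : S_MEA) (hBLK : S_BLK) : S_MNS := by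
  intro s V m _ K hP
  refine ⟨fun k l ρ => mean_mem hLOC hP.mono m _ l ρ, ?_⟩
  intro k j l ρ hlj hjk hkK hρ
  have main : ∀ d : ℕ, j + d ≤ K → ∀ ρ < P s (j + d),
      |E s V m (j + d) l ρ - E s V m j l (ρ % P s j)| ≤
        (1 / 2) ^ (j + 1) - (1 / 2) ^ (j + d + 1) := by
    intro d
    induction d with
    | zero =>
      intro _ ρ hρ
      rw [add_zero, Nat.mod_eq_of_lt (by simpa using hρ)]
      simp
    | succ d ih =>
      intro hd ρ _
      have h1 := step hLOC hMEA hBLK hP (l := l) (k := j + d) (by omega) (by omega) ρ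
      have h2 := ih (by omega) (ρ % P s (j + d)) (Nat.mod_lt _ (P_pos s _))
      rw [Nat.mod_mod_of_dvd ρ (P_dvd hP.mono (Nat.le_add_right j d))] at h2
      have h3 : (1 / 2 : ℝ) ^ (j + d + 1) = 2 * (1 / 2) ^ (j + d + 2) := by
        rw [pow_succ (1 / 2 : ℝ) (j + d + 1)]; ring
      rw [show j + (d + 1) = j + d + 1 from rfl, show j + d + 1 + 1 = j + d + 2 from rfl]
      calc |E s V m (j + d + 1) l ρ - E s V m j l (ρ % P s j)|
          ≤ |E s V m (j + d + 1) l ρ - E s V m (j + d) l (ρ % P s (j + d))| +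
            |E s V m (j + d) l (ρ % P s (j + d)) - E s V m j l (ρ % P s j)| := abs_sub_le _ _ _
        _ ≤ (1 / 2) ^ (j + d + 2) + ((1 / 2) ^ (j + 1) - (1 / 2) ^ (j + d + 1)) :=
            add_le_add h1 h2
        _ = (1 / 2) ^ (j + 1) - (1 / 2) ^ (j + d + 2) := by rw [h3]; ring
  obtain ⟨d, rfl⟩ := Nat.exists_eq_add_of_le hjk
  refine (main d hkK ρ hρ).trans ?_
  have : (0 : ℝ) ≤ (1 / 2) ^ (j + d + 1) := by positivity
  linarith

end Pool.Agent.Helper13.MB
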