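import Pool.Agent.Helper59.MB.Goals3

/-!
# Project MB, packet QBE: Theorem 4 (an affirmative answer to Q1 implies Moebius disjointness of all
uniquely ergodic models of Bernoulli shifts).
-/

set_option autoImplicit false

open MeasureTheory Filter Topology Finset

namespace Pool.Agent.Helper13.MB

open Pool.Agent.Helper59.MB

lemma md_of_umd {Y : Type} [TopologicalSpace Y] {T : Y → Y} (h : UMD T) : MD T := by
  intro f x
  rw [Metric.tendsto_atTop]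
  intro ε hε
  obtain ⟨N₀, hN₀⟩ := h f (ε / 2) (by linarith)
  refine ⟨max N₀ 1, fun N hN => ?_⟩
  have h1 := hN₀ N ((le_max_left _ _).trans hN) x
  have h2 : (0 : ℝ) < N := by
    have : 1 ≤ N := (le_max_right _ _).trans hN
    exact_mod_cast this
  rw [Real.dist_eq, sub_zero, abs_mul, abs_of_pos (by positivity : (0 : ℝ) < 1 / N)]
  calc 1 / (N : ℝ) * |∑ n ∈ Finset.Icc 1 N, f (T^[n] x) *
        ((ArithmeticFunction.moebius n : ℤ) : ℝ)| ≤ 1 / (N : ℝ) * (ε / 2 * N) :=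
        mul_le_mul_of_nonneg_left h1 (by positivity)
    _ = ε / 2 := by field_simp
    _ < ε := by linarith

/-- the product with the odometer, as a homeomorphism -/
noncomputable def oTT {Y : Type} [TopologicalSpace Y] (T : Y ≃ₜ Y) : (Y × ℤ_[2]) ≃ₜ (Y × ℤ_[2]) :=
  T.prodCongr (Homeomorph.addRight 1)

lemma oTT_coe {Y : Type} [TopologicalSpace Y] (T : Y ≃ₜ Y) :
    ⇑(oTT T) = fun z : Y × ℤ_[2] => (T z.1, z.2 + 1) := rfl

lemma oTT_iter {Y : Type} [TopologicalSpace Y] (T : Y ≃ₜ Y) (n : ℕ) (z : Y × ℤ_[2]) :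
    ((⇑(oTT T))^[n] z).1 = (⇑T)^[n] z.1 := by
  induction n with
  | zero => rfl
  | succ n ih =>
    rw [Function.iterate_succ_apply', Function.iterate_succ_apply', ← ih]
    rfl

/-- **Packet MB-QBE.** -/
theorem t_QBE (hMOD1 : S_MOD1) (hISA : S_ISA) (hIPR : S_IPR) (hALP : S_ALP) (hERG : S_ERG)
    (hERT : S_ERT) (hUEE : S_UEE) (hUEP : S_UEP) : S_QBE := by
  intro hQ Y _ _ _ _ T ν hUE hB
  obtain ⟨Z, mZ, sZ, κ, hκ, hIso⟩ := hB
  obtain ⟨m, hm, -, hZA, -⟩ := hALP Z κ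
  have hTA : Iso (⇑T) ν (shiftZ A) (Be m) :=
    hISA.2 Y (ℤ → Z) (ℤ → A) (⇑T) ν (shiftZ Z) (Be κ) (shiftZ A) (Be m) hIso hZA
  have hν := hUE.1
  have hTν := hUE.2.1
  have hBe : IsProbabilityMeasure (Be m) := by unfold Be; infer_instance
  have hsh : MeasurePreserving (shiftZ A) (Be m) (Be m) := by
    have h := (hERG m 1 one_pos).toMeasurePreserving
    rwa [Function.iterate_one] at h
  have herg : ∀ k : ℕ, Ergodic ((⇑T)^[2 ^ k]) ν := fun k =>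
    hERT Y (ℤ → A) (⇑T) ν (shiftZ A) (Be m) (2 ^ k) hν hTν hsh hTA
      (hERG m (2 ^ k) (by positivity))
  have hUE' : UE (⇑(oTT T)) (ν.prod haar2) := hUEP Y (⇑T) ν hUE herg
  have hI1 : Iso (⇑(oTT T)) (ν.prod haar2) (⇑TB) (BM m) :=
    hIPR Y (ℤ → A) (⇑T) ν (shiftZ A) (Be m) hν hBe hTA
  obtain ⟨W, w1, w2, w3, w4, R, ρ, hUR, hIR, hMD⟩ := hMOD1 m
  obtain ⟨φ, ψ, h1, h2, h3, h4, h5⟩ : Iso (⇑R) ρ (⇑(oTT T)) (ν.prod haar2) :=
    hISA.2 W Bas (Y × ℤ_[2]) (⇑R) ρ (⇑TB) (BM m) (⇑(oTT T)) (ν.prod haar2) hIR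
      (hISA.1 (Y × ℤ_[2]) Bas (⇑(oTT T)) (ν.prod haar2) (⇑TB) (BM m) hUE'.2.1 hI1)
  have key := hQ W (Y × ℤ_[2]) R (oTT T) ρ (ν.prod haar2) hUR.1 hUE'.1 hUR.2.1 hUE'.2.1
    hUR.2.2 hUE'.2.2 (hUEE W (⇑R) ρ hUR) ⟨φ, ψ, h1, h2, h3, h4, h5⟩ (md_of_umd hMD)
  intro f y
  have h6 := key (f.comp ContinuousMap.fst) (y, 0)
  refine h6.congr fun N => ?_
  refine congrArg (fun t => 1 / (N : ℝ) * t) (Finset.sum_congr rfl fun n _ => ?_)
  have h7 : (f.comp (ContinuousMap.fst : C(Y × ℤ_[2], Y))) ((⇑(oTT T))^[n] (y, 0)) =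
      f ((⇑T)^[n] y) := congrArg f (oTT_iter T n (y, 0))
  rw [h7]

end Pool.Agent.Helper13.MB
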